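import Pool.Agent.H843.Nd12

/-!
# The sign conjecture, nilpotence and the multiplicativity of the numerical dimension

The numerical dimension `N(X)` is the largest natural number which is the intersection number with
the diagonal of a correspondence on `X × X` whose square is numerically equivalent to the diagonal.
For every Weil cohomology theory (for example the crystalline cohomology over a perfect field of
positive characteristic) the conjecture `C⁺` for all `X` is equivalent to two statements: the
numerically trivial correspondences are nilpotent, and `N(X × X) = N(X) ^ 2`. For a single `X` the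
same holds with the powers of `X`, and one power of explicit size decides. The square of `N` of a
power is, up to a polynomial factor, the rank of the group of correspondences modulo numerical
equivalence.
-/

open CategoryTheory AlgebraicGeometry Filter Topology

universe u v v'

namespace Pool.Agent.Results.MP_fd35e1_ag.MultiplicativeDimension

open Pool.Agent.H914 Pool.Agent.H914.VarClass Pool.Agent.H914.VarClass.Obj
  Pool.Agent.H914.WeilCohomology Pool.Agent.Y133.Half Pool.Agent.H447 Pool.Agent.Q55.Rate
  Pool.Agent.Q57.ND Pool.Agent.H843.Nd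

variable {k : Type u} [Field k] {𝒱 : VarClass k} {ops : CycleOps 𝒱}

/-- **The sign conjecture, nilpotence and the multiplicativity of the numerical dimension.** -/
theorem result (W : WeilCohomology.{u, v} ops) :
    ((∀ X, SignStd W X) ↔ (∀ X, AllNilpotent (IsNumTrivialOp W X)) ∧
      ∀ X : 𝒱.Obj, numericalDim ops (X.prod X) = numericalDim ops X ^ 2) ∧
    ∀ X : 𝒱.Obj,
      (∀ Y, numericalDim ops X * numericalDim ops Y ≤ numericalDim ops (X.prod Y)) ∧
      (∀ n, corrRank ops (pw X n) ≤ numericalDim ops (pw X n) ^ 2 ∧
        numericalDim ops (pw X n) ^ 2 ≤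
          corrRank ops (pw X n) * (n + 2) ^ (totalBetti W X ^ 2)) ∧
      ∃ ρ : ℝ,
        Tendsto (fun n : ℕ => (numericalDim ops (pw X n) : ℝ) ^ ((1 : ℝ) / (n + 1)))
          atTop (𝓝 ρ) ∧
        Tendsto (fun n : ℕ => (corrRank ops (pw X n) : ℝ) ^ ((1 : ℝ) / (n + 1)))
          atTop (𝓝 (ρ ^ 2)) ∧
        List.TFAE [(numericalDim ops X : ℝ) = ρ,
          ∀ n, numericalDim ops (pw X n) = numericalDim ops X ^ (n + 1),
          ∀ n, corrRank ops (pw X n) ≤ numericalDim ops X ^ (2 * (n + 1))] ∧
        ∀ W' : WeilCohomology.{u, v'} ops,
          (numericalDim ops X : ℝ) ≤ ρ ∧ ρ ≤ totalBetti W' X ∧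
          (ρ = totalBetti W' X ↔ NumTrivialNilpotent W' X) ∧
          (SignStd W' X ↔ (numericalDim ops X : ℝ) = ρ ∧ NumTrivialNilpotent W' X) ∧
          ∀ n, totalBetti W' X ^ 4 ≤ n + 1 → List.TFAE [
            SignStd W' X,
            AllNilpotent (IsNumTrivialOp W' (pw X n)) ∧
              numericalDim ops (pw X n) = numericalDim ops X ^ (n + 1),
            AllNilpotent (IsNumTrivialOp W' (pw X n)) ∧
              corrRank ops (pw X n) ≤ numericalDim ops X ^ (2 * (n + 1))] :=
  ⟨Pool.Agent.H843.Nd.global W, fun X => Pool.Agent.H843.Nd.main W X⟩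

end Pool.Agent.Results.MP_fd35e1_ag.MultiplicativeDimension
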