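import Pool.Agent.H838.SgnMain

/-!
# The sign conjecture for crystalline cohomology can be tested modulo one prime number

Let `X` be a smooth proper variety of dimension `n`, `W₀` a Weil cohomology theory, for example
crystalline cohomology, and `b` the sum of the Betti numbers of `X`. Let `SignAt W₀ X ℓ` be the sign
conjecture with coefficients in the local ring at `ℓ`: the projector `π⁺` onto the even part of the
`W₀`-cohomology of `X` is given by a cycle whose coefficients are rational numbers with denominators
prime to `ℓ`. The sign conjecture for `X` implies `SignAt W₀ X ℓ` for almost all prime numbers `ℓ`,
and is implied by `SignAt W₀ X ℓ` for one number `ℓ`.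

Let `ℓ` be any prime number, `W` any Weil cohomology theory with the same sum of Betti numbers for
`X`, and `T` a graded lattice in the `W`-cohomology of `X` over a valuation ring `O` with maximal ideal
`𝔪` containing `ℓ`, which is preserved by the integral correspondences. For example `W = W₀` is
crystalline cohomology, `ℓ = p`, `O = W(k)` and `T` is the image of the integral crystalline
cohomology; if the latter has no torsion, then `T / 𝔪 T` is the de Rham cohomology `H_dR(X / k)`. Or
`ℓ` is different from `p`, and `T` is the image of the étale cohomology with coefficients `ℤ_ℓ`.

**Theorem.** (A) The following are equivalent.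

1. `SignAt W₀ X ℓ`.
2. One integral correspondence of degree zero acts on `T / 𝔪 T` as the projector onto the even part.
3. For all `t` of even and all `t'` of odd degree in `T` some integral correspondence of degree zero,
   which may depend on `t` and `t'`, fixes `t` and kills `t'` modulo `𝔪`.
4. (If `ℓ` is odd and larger than `b`.) There is an integral correspondence `z` of degree zero such
   that `z ∘ z` is numerically equivalent to the diagonal `Δ` modulo `ℓ` and the intersection number
   of `z` and `Δ` is congruent to `b` modulo `ℓ`.

(B) The following are equivalent, and imply the sign conjecture for `X` and `W₀`.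

1. `π⁺` is a linear combination, with coefficients in `O`, of integral correspondences.
2. One such combination acts on `T / 𝔪 T` as the projector onto the even part.
3. As (A)3, with combinations with coefficients in `O`.
4. Every `O`-submodule between `𝔪 T` and `T` (subspace of `T / 𝔪 T`) which is stable under the
   integral correspondences of degree zero is the sum of its even and its odd part.

If the residue field has `ℓ` elements, then (A) and (B) are equivalent.

So the sign conjecture for crystalline cohomology with `p`-integral coefficients is a statement about
the action of correspondences on the de Rham cohomology in characteristic `p`, if the crystalline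
cohomology has no torsion, and the sign conjecture for crystalline cohomology holds if every subspace
of `H_dR(X / k)` stable under correspondences is the sum of its even and its odd part. There is no
assumption on the size of `ℓ` (but for (A)4), on hard Lefschetz or on the conjecture D.

Idea of the proof. Let `z` be as in (A)2. The operator `z` on the even part is congruent to `1` and
on the odd part congruent to `0`, so `π⁺` is a polynomial in `z` with coefficients in `O`. By the
Lefschetz trace formula the differences of the traces of the powers of `z` on the two parts are
rational, therefore `π⁺` is a polynomial in `z` with rational coefficients, and the traces on each of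
the two parts are rational; then the inverse of the operator which is `z` on the even and `1` on the
odd part is a polynomial in it with rational coefficients in `O`. In (A)4 the multiplicities of the
eigenvalues of `z` modulo `𝔪` are determined by the traces, since they are smaller than `ℓ`, and a
power of `z` with exponent a power of `ℓ` is congruent to `π⁺ - π⁻`.
-/

open CategoryTheory AlgebraicGeometry

universe u v

namespace Pool.Agent.Results.MP_fd35e1_ag.SignModuloPrime

open Pool.Agent.H914 Pool.Agent.H914.VarClass Pool.Agent.H447 Pool.Agent.H838

/-- **The sign conjecture can be tested modulo one prime number.** -/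
theorem result {k : Type u} [Field k] {𝒱 : VarClass k} {ops : CycleOps 𝒱}
    (hops : PreservesIntegral ops) (X : 𝒱.Obj) (W₀ : WeilCohomology.{u, v} ops) :
    (∀ W : WeilCohomology.{u, v} ops,
      Module.finrank W.K (W.H X) = Module.finrank W₀.K (W₀.H X) → ∀ ℓ : ℕ, ℓ.Prime →
      ∀ S : IntegralStructure W X ℓ, S.lat.IsGraded (W.gr X) → S.SignCriteria W₀ ∧
        (Module.finrank W₀.K (W₀.H X) < ℓ → ℓ ≠ 2 →
          (SignAt W₀ X ℓ ↔ SignNumMod ops X (Module.finrank W₀.K (W₀.H X)) ℓ))) ∧
    (∀ ℓ, SignAt W₀ X ℓ → SignStd W₀ X) ∧
    (SignStd W₀ X → ∃ N : ℕ, 0 < N ∧ ∀ ℓ : ℕ, ℓ.Prime → ¬ ℓ ∣ N → SignAt W₀ X ℓ) :=
  ⟨fun W hb _ hℓ S hS => sgn_main hops X W₀ W hb hℓ S hS, fun _ => signStd_of_signAt,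
    signAt_of_signStd⟩

end Pool.Agent.Results.MP_fd35e1_ag.SignModuloPrime
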